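import Mathlib

namespace Pool.Agent.Results.MP_e2d9cc_pr.No

open MeasureTheory Set Filter Topology unitInterval
open scoped ENNReal

/-- A graphon on the unit interval with Lebesgue measure. -/
def IsGraphon (W : I → I → ℝ) : Prop :=
  Measurable (Function.uncurry W) ∧ (∀ x y, W x y = W y x) ∧ ∀ x y, W x y ∈ Icc (0 : ℝ) 1

def Connected (W : I → I → ℝ) : Prop :=
  ∀ S T : Set I, MeasurableSet S → MeasurableSet T → Disjoint S T → S ∪ T = univ →
    0 < volume S → 0 < volume T → 0 < ∫ p in S ×ˢ T, W p.1 p.2 ∂(volume.prod volume)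

noncomputable def deg (W : I → I → ℝ) (x : I) : ℝ := ∫ y, W x y

/-- Condition (ii). -/
def CondII (W : I → I → ℝ) : Prop :=
  Tendsto (fun α : ℝ => volume.real {x | deg W x ≤ α} / α) (𝓝[>] 0) atTop

/-- Condition (iii), with `W = 0` required only almost everywhere. -/
def NarrowPeninsula (W : I → I → ℝ) : Prop :=
  ∃ a ∈ Ioc (0 : ℝ) (1 / 2), ∃ A B : Set I, MeasurableSet A ∧ MeasurableSet B ∧ Disjoint A B ∧
    a < volume.real A ∧ volume.real B = 1 - 2 * a ∧
    ∀ᵐ p ∂(volume.prod volume), p ∈ A ×ˢ (A ∪ B) → W p.1 p.2 = 0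

/-- Condition (iv). -/
def CondIV (W : I → I → ℝ) : Prop :=
  ∃ S T : Set I, MeasurableSet S ∧ MeasurableSet T ∧ Disjoint S T ∧ S ∪ T = univ ∧
    volume.real S = 1 / 2 ∧ volume.real T = 1 / 2 ∧
    ∀ᵐ p ∂(volume.prod volume), p ∈ S ×ˢ S ∪ T ×ˢ T → W p.1 p.2 = 0

/-- The sampled graph: for `i < j`, `ij` is an edge iff `U (i,j) < W (X i) (X j)`. -/
def sample {n : ℕ} (W : I → I → ℝ) (X : Fin n → I) (U : Fin n × Fin n → I) :
    SimpleGraph (Fin n) :=
  SimpleGraph.fromRel fun i j => i < j ∧ (U (i, j) : ℝ) < W (X i) (X j)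

/-- Probability that `G(n,W)` is Hamiltonian: `X i` and `U (i,j)` are independent uniform. -/
noncomputable def hamProb (W : I → I → ℝ) (n : ℕ) : ℝ≥0∞ :=
  ((Measure.pi fun _ : Fin n => (volume : Measure I)).prod
    (Measure.pi fun _ : Fin n × Fin n => (volume : Measure I)))
      {ω | (sample W ω.1 ω.2).IsHamiltonian}

/-! ### The example -/

noncomputable def pt (k : ℕ) : I := ⟨(1 / 2) ^ k, by positivity, pow_le_one₀ (by norm_num) (by norm_num)⟩

def A (k : ℕ) : Set I := Ico (pt (k + 2)) (pt (k + 1))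
def N (k : ℕ) : Set I := symm ⁻¹' A k
def C : Set I := (⋃ k, A k)ᶜ

def R (x y : I) : Prop := (x ∈ C ∧ y ∈ C) ∨ ∃ k, (x ∈ A k ∧ y ∈ N k) ∨ (y ∈ A k ∧ x ∈ N k)

noncomputable def W0 (x y : I) : ℝ := indicator {p : I × I | R p.1 p.2} 1 (x, y)

lemma mem_A {k : ℕ} {x : I} : x ∈ A k ↔ (1 / 2 : ℝ) ^ (k + 2) ≤ x ∧ (x : ℝ) < (1 / 2) ^ (k + 1) :=
  Iff.rfl

lemma mA (k : ℕ) : MeasurableSet (A k) := measurableSet_Ico
lemma mN (k : ℕ) : MeasurableSet (N k) := measurable_symm (mA k)
lemma mC : MeasurableSet C := (MeasurableSet.iUnion mA).compl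

lemma A_lt {k : ℕ} {x : I} (h : x ∈ A k) : (x : ℝ) < 1 / 2 :=
  (mem_A.1 h).2.trans_le ((pow_le_pow_of_le_one (by norm_num) (by norm_num)
    (Nat.le_add_left 1 k)).trans_eq (pow_one _))

lemma A_eq {k l : ℕ} {x : I} (h : x ∈ A k) (h' : x ∈ A l) : k = l := by
  have key : ∀ {k l : ℕ}, x ∈ A k → x ∈ A l → ¬ k < l := fun {k l} h h' hlt => by
    have := pow_le_pow_of_le_one (a := (1 / 2 : ℝ)) (by norm_num) (by norm_num)
      (show k + 2 ≤ l + 1 by omega)
    linarith [(mem_A.1 h).1, (mem_A.1 h').2]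
  exact le_antisymm (not_lt.1 (key h' h)) (not_lt.1 (key h h'))

lemma mem_C {x : I} (h : 1 / 2 ≤ (x : ℝ)) : x ∈ C := by
  simp only [C, mem_compl_iff, mem_iUnion, not_exists]
  exact fun k hk => (A_lt hk).not_ge h

lemma N_sub {k : ℕ} {x : I} (h : x ∈ N k) : x ∈ C := by
  have := A_lt h
  rw [coe_symm_eq] at this
  exact mem_C (by linarith)

lemma not_C {k : ℕ} {x : I} (h : x ∈ A k) : x ∉ C := fun h' => h' (mem_iUnion.2 ⟨k, h⟩)

lemma vA (k : ℕ) : volume (A k) = ENNReal.ofReal ((1 / 2) ^ (k + 2)) := by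
  rw [A, unitInterval.volume_Ico]; congr 1; simp only [pt]; ring

lemma vN (s : Set I) (hs : MeasurableSet s) : volume (symm ⁻¹' s) = volume s :=
  measurePreserving_symm.measure_preimage hs.nullMeasurableSet

lemma vA_ne (k : ℕ) : volume (A k) ≠ 0 := by rw [vA]; simp
lemma vN_ne (k : ℕ) : volume (N k) ≠ 0 := by rw [N, vN _ (mA k)]; exact vA_ne k

lemma R_symm {x y : I} (h : R x y) : R y x :=
  h.imp And.symm fun ⟨k, h⟩ => ⟨k, h.symm⟩

lemma R_A {k : ℕ} {x y : I} (hx : x ∈ A k) (h : R x y) : y ∈ N k := by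
  rcases h with h | ⟨l, h | h⟩
  · exact absurd h.1 (not_C hx)
  · exact A_eq hx h.1 ▸ h.2
  · exact absurd (N_sub h.2) (not_C hx)

lemma mR : MeasurableSet {p : I × I | R p.1 p.2} := by
  have := mA; have := mN; have := mC
  simp only [R, setOf_or, setOf_and, setOf_exists]
  exact ((measurable_fst mC).inter (measurable_snd mC)).union (MeasurableSet.iUnion fun k =>
    ((measurable_fst (mA k)).inter (measurable_snd (mN k))).union
      ((measurable_snd (mA k)).inter (measurable_fst (mN k))))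

lemma W0_mem (x y : I) : W0 x y ∈ Icc (0 : ℝ) 1 := by
  by_cases h : R x y <;> simp [W0, h]

/-- No edges (almost everywhere) between `S` and `T`. -/
def Z (S T : Set I) : Prop :=
  ∀ P ⊆ S, ∀ Q ⊆ T, (∀ x ∈ P, ∀ y ∈ Q, R x y) → volume P = 0 ∨ volume Q = 0

lemma Z_of {S T : Set I} (h : ∀ᵐ p ∂(volume.prod volume), p ∈ S ×ˢ T → W0 p.1 p.2 = 0) :
    Z S T := fun P hP Q hQ hR => by
  rw [← mul_eq_zero, ← Measure.prod_prod]
  refine measure_mono_null (fun p hp => ?_) h
  intro h
  have := h ⟨hP hp.1, hQ hp.2⟩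
  simp [W0, hR _ hp.1 _ hp.2] at this

lemma Z_C {S T : Set I} (h : Z S T) : volume (S ∩ C) = 0 ∨ volume (T ∩ C) = 0 :=
  h _ inter_subset_left _ inter_subset_left fun _ hx _ hy => Or.inl ⟨hx.2, hy.2⟩

lemma Z_A {S T : Set I} (h : Z S T) (k : ℕ) : volume (S ∩ A k) = 0 ∨ volume (T ∩ N k) = 0 :=
  h _ inter_subset_left _ inter_subset_left fun _ hx _ hy => Or.inr ⟨k, Or.inl ⟨hx.2, hy.2⟩⟩

lemma cover (S : Set I) : S ⊆ (S ∩ C) ∪ ⋃ k, S ∩ A k := fun x hx => by
  by_cases h : x ∈ C
  · exact Or.inl ⟨hx, h⟩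
  · obtain ⟨k, hk⟩ := mem_iUnion.1 (not_not.1 h)
    exact Or.inr (mem_iUnion.2 ⟨k, hx, hk⟩)

lemma connected : Connected W0 := by
  have key : ∀ S T : Set I, S ∪ T = univ → 0 < volume S → Z S T → volume (S ∩ C) ≠ 0 := by
    intro S T hu hS hZ h0
    have : ∃ k, volume (S ∩ A k) ≠ 0 := by
      by_contra hn
      push Not at hn
      exact hS.ne' (measure_mono_null (cover S) (measure_union_null h0 (measure_iUnion_null hn)))
    obtain ⟨k, hk⟩ := this
    refine vN_ne k (measure_mono_null (fun x hx => ?_)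
      (measure_union_null h0 ((Z_A hZ k).resolve_left hk)))
    exact (hu.symm.subset (mem_univ x)).imp (fun h => ⟨h, N_sub hx⟩) fun h => ⟨h, hx⟩
  intro S T hS hT _ hu h1 h2
  refine lt_of_le_of_ne (integral_nonneg fun p => (W0_mem _ _).1) fun h => ?_
  have := (setIntegral_eq_zero_iff_of_nonneg_ae (Eventually.of_forall fun p => (W0_mem _ _).1)
    ((integrable_const (1 : ℝ)).indicator mR).integrableOn).1 h.symm
  have hZ := Z_of ((ae_restrict_iff' (hS.prod hT)).1 this)
  rcases Z_C hZ with h | h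
  · exact key S T hu h1 hZ h
  · exact key T S (union_comm S T ▸ hu) h2
      (fun P hP Q hQ hR => (hZ Q hQ P hP fun x hx y hy => R_symm (hR y hy x hx)).symm) h

lemma vC : 1 / 2 ≤ volume.real C := by
  refine le_trans ?_ (measureReal_mono (s₁ := Ici (pt 1)) (fun x hx => mem_C ?_))
  · simp only [Measure.real, unitInterval.volume_Ici, pt]; rw [ENNReal.toReal_ofReal] <;> norm_num
  · simpa [pt] using show (pt 1 : ℝ) ≤ x from hx

lemma deg_ge (x : I) : (x : ℝ) / 2 ≤ deg W0 x := by
  have : deg W0 x = volume.real {y | R x y} := by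
    exact integral_indicator_one (s := {y | R x y}) (measurable_prodMk_left mR)
  rw [this]
  by_cases h : x ∈ C
  · refine le_trans ?_ (vC.trans (measureReal_mono fun y hy => Or.inl ⟨h, hy⟩))
    linarith [x.2.2]
  · obtain ⟨k, hk⟩ := mem_iUnion.1 (not_not.1 h)
    refine le_trans ?_ (measureReal_mono (s₁ := N k) fun y hy => Or.inr ⟨k, Or.inl ⟨hk, hy⟩⟩)
    rw [Measure.real, N, vN _ (mA k), vA, ENNReal.toReal_ofReal (by positivity), pow_succ]
    linarith [(mem_A.1 hk).2]

lemma notII : ¬ CondII W0 := fun h => by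
  obtain ⟨α, h1, h2⟩ := ((h.eventually_gt_atTop 2).and (Ioo_mem_nhdsGT one_half_pos)).exists
  rw [lt_div_iff₀ h2.1] at h1
  have h3 : 2 * α ∈ I := ⟨by linarith [h2.1], by linarith [h2.2]⟩
  refine h1.not_ge ((measureReal_mono (s₂ := Iic ⟨2 * α, h3⟩)
    (fun x hx => ?_) (measure_ne_top _ _)).trans_eq ?_)
  · have := (deg_ge x).trans hx
    change (x : ℝ) ≤ 2 * α
    linarith
  · rw [Measure.real, unitInterval.volume_Iic, ENNReal.toReal_ofReal (by simpa using h2.1.le)]

lemma notIII : ¬ NarrowPeninsula W0 := by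
  rintro ⟨a, -, S, B, hS, hB, hd, h1, h2, h⟩
  have hZ := Z_of h
  have h0 : volume (S ∩ C) = 0 := by
    simpa using Z_C (S := S) (T := S) fun P hP Q hQ => hZ P hP Q (hQ.trans subset_union_left)
  obtain ⟨M, hM⟩ : ∃ M : Set I, M = ⋃ k : {k // volume (S ∩ A k) ≠ 0}, A k := ⟨_, rfl⟩
  have mM : MeasurableSet M := hM ▸ MeasurableSet.iUnion fun k => mA k
  have h3 : volume S ≤ volume (symm ⁻¹' M) := by
    rw [vN _ mM]
    refine measure_mono_ae ?_
    have : volume ((S ∩ C) ∪ ⋃ k : {k // volume (S ∩ A k) = 0}, S ∩ A k) = 0 :=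
      measure_union_null h0 (measure_iUnion_null fun k => k.2)
    refine measure_mono_null (fun x hx => ?_) this
    replace hx : x ∈ S ∧ x ∉ M := Classical.not_imp.1 hx
    rcases cover S hx.1 with h | h
    · exact Or.inl h
    · obtain ⟨k, hk⟩ := mem_iUnion.1 h
      by_cases h' : volume (S ∩ A k) = 0
      · exact Or.inr (mem_iUnion.2 ⟨⟨k, h'⟩, hk⟩)
      · exact absurd (hM ▸ mem_iUnion.2 ⟨⟨k, h'⟩, hk.2⟩) hx.2
  have h4 : volume ((S ∪ B) ∩ symm ⁻¹' M) = 0 := by
    rw [hM, preimage_iUnion, inter_iUnion]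
    exact measure_iUnion_null fun k => (Z_A hZ k).resolve_left k.2
  have h5 := measureReal_union_add_inter (μ := volume) (s := S ∪ B) (measurable_symm mM)
  rw [measureReal_union hd hB, Measure.real.eq_1 _ (_ ∩ _), h4] at h5
  have h6 := measureReal_le_one (μ := volume) (s := S ∪ B ∪ symm ⁻¹' M)
  have h7 : volume.real S ≤ volume.real (symm ⁻¹' M) := ENNReal.toReal_mono (by simp) h3
  simp only [ENNReal.toReal_zero] at h5
  linarith

lemma notIV : ¬ CondIV W0 := by
  rintro ⟨S, T, -, -, -, hu, -, -, h⟩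
  have h1 := Z_C (Z_of (S := S) (T := S) (h.mono fun p hp hm => hp (Or.inl hm)))
  have h2 := Z_C (Z_of (S := T) (T := T) (h.mono fun p hp hm => hp (Or.inr hm)))
  rw [or_self] at h1 h2
  have := measure_union_null h1 h2
  rw [← union_inter_distrib_right, hu, univ_inter] at this
  have h3 := vC
  rw [Measure.real, this] at h3
  norm_num at h3

/-! ### Hamiltonicity -/

open Classical in
noncomputable def cnt {n : ℕ} (s : Set I) (X : Fin n → I) : ℕ :=
  (Finset.univ.filter fun i => X i ∈ s).card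

lemma ham {n : ℕ} (hn : 2 ≤ n) {X : Fin n → I} {U : Fin n × Fin n → I}
    (h : (sample W0 X U).IsHamiltonian) (k : ℕ) :
    cnt (A k) X < cnt (N k) X ∨ (∀ i, X i ∉ A k) ∨ ∀ i, X i ∉ A (k + 1) := by
  classical
  obtain ⟨m, rfl⟩ : ∃ m, n = m + 1 := ⟨n - 1, by omega⟩
  obtain ⟨a, p, hp⟩ := h (by simp; omega)
  have hl : p.length = m + 1 := by simpa using hp.length_eq
  have hi : Function.Injective fun i : Fin (m + 1) => p.getVert i := fun i j h =>
    Fin.ext (hp.isCycle.getVert_injOn' (by simp [hl, Fin.is_le]) (by simp [hl, Fin.is_le]) h)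
  obtain ⟨e, he⟩ : ∃ e : Equiv.Perm (Fin (m + 1)), ∀ i, e i = p.getVert i :=
    ⟨Equiv.ofBijective _ (Finite.injective_iff_bijective.1 hi), fun _ => rfl⟩
  have hR : ∀ i, R (X (e i)) (X (e (i + 1))) := fun i => by
    have h1 := p.adj_getVert_succ (i := i) (by omega)
    have h2 : p.getVert (i + 1) = e (i + 1) := by
      rw [he, Fin.val_add_one]
      split_ifs with h
      · rw [h, Fin.val_last, p.getVert_zero]; exact p.getVert_of_length_le hl.le
      · rfl
    rw [h2, ← he] at h1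
    have key : ∀ x y (u : I), (u : ℝ) < W0 x y → R x y := fun x y u h => by
      by_contra hn
      simp only [W0, mem_setOf_eq, hn, not_false_eq_true, indicator_of_notMem] at h
      exact h.not_ge u.2.1
    rcases ((SimpleGraph.fromRel_adj _ _ _).1 h1).2 with h | h
    exacts [key _ _ _ h.2, R_symm (key _ _ _ h.2)]
  have hc : ∀ s, cnt s X = (Finset.univ.filter fun i => X (e i) ∈ s).card := fun s =>
    (Finset.card_equiv e (by simp)).symm
  rw [hc, hc]
  by_contra hcon
  push Not at hcon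
  obtain ⟨h1, ⟨i, h2⟩, j, h3⟩ := hcon
  have h4 : (Finset.univ.filter fun i => X (e i) ∈ A k).image (· - 1) =
      Finset.univ.filter fun i => X (e i) ∈ N k := by
    refine Finset.eq_of_subset_of_card_le (fun x hx => ?_)
      (by rwa [Finset.card_image_of_injective _ (sub_left_injective)])
    obtain ⟨y, hy, rfl⟩ := Finset.mem_image.1 hx
    simp only [Finset.mem_filter, Finset.mem_univ, true_and] at hy ⊢
    exact R_A hy (R_symm (by simpa using hR (y - 1)))
  have h5 : ∀ i, X (e i) ∈ A k ∪ N k → X (e (i + 1)) ∈ A k ∪ N k := by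
    rintro i (h | h)
    · exact Or.inr (R_A h (hR i))
    · obtain ⟨y, hy, rfl⟩ := Finset.mem_image.1 (h4.symm ▸ Finset.mem_filter.2 ⟨Finset.mem_univ i, h⟩)
      exact Or.inl (by simpa using hy)
  have h6 : ∀ t : ℕ, X (e (e.symm i + Fin.ofNat _ t)) ∈ A k ∪ N k := fun t => by
    induction t with
    | zero => exact Or.inl (by simpa using h2)
    | succ t ih =>
      have : Fin.ofNat (m + 1) (t + 1) = Fin.ofNat (m + 1) t + 1 := by
        ext; simp [Fin.val_add]
      rw [this, ← add_assoc]; exact h5 _ ih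
  have h7 := h6 (e.symm j - e.symm i).val
  simp only [Fin.ofNat_val_eq_self, add_sub_cancel, Equiv.apply_symm_apply] at h7
  rcases h7 with h | h
  · simpa using A_eq h h3
  · exact not_C h3 (N_sub h)

open Classical in
noncomputable def τ (k : ℕ) (x : I) : I := if x ∈ A k ∪ N k then symm x else x

lemma τ_mp (k : ℕ) : MeasurePreserving (τ k) volume volume := by
  classical
  have hM := (mA k).union (mN k)
  have hm : Measurable (τ k) := Measurable.ite hM measurable_symm measurable_id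
  refine ⟨hm, Measure.ext fun s hs => ?_⟩
  rw [Measure.map_apply hm hs, ← measure_inter_add_diff _ hM, ← measure_inter_add_diff s hM,
    ← vN _ (hs.inter hM)]
  congr 2
  · ext x
    have : symm x ∈ A k ∪ N k ↔ x ∈ A k ∪ N k := by simp [N, or_comm]
    simp only [mem_inter_iff, mem_preimage, this, τ]
    exact and_congr_left fun h => by rw [if_pos h]
  · ext x
    simp only [mem_diff, mem_preimage, τ]
    exact and_congr_left fun h => by rw [if_neg h]

lemma τ_A (k l : ℕ) (x : I) : (τ k x ∈ A l ↔ if l = k then x ∈ N l else x ∈ A l) ∧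
    (τ k x ∈ N l ↔ if l = k then x ∈ A l else x ∈ N l) := by
  have h1 : ∀ {y k l}, y ∈ A k → y ∉ N l := fun h h' => not_C h (N_sub h')
  have h2 : ∀ l, symm x ∈ A l ↔ x ∈ N l := fun l => Iff.rfl
  have h3 : ∀ l, symm x ∈ N l ↔ x ∈ A l := fun l => by simp [N]
  unfold τ
  split_ifs with h hl hl
  · exact ⟨h2 l, h3 l⟩
  · rw [h2, h3]
    have h4 : x ∉ A l := fun h' => h.elim (fun h => hl (A_eq h' h)) (h1 h')
    have h5 : x ∉ N l := fun h' => h.elim (fun h => h1 h h') fun h => hl (A_eq h' h)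
    simp [h4, h5]
  · subst hl; simp only [mem_union, not_or] at h; simp [h]
  · simp

lemma cnt_meas {n : ℕ} {s : Set I} (hs : MeasurableSet s) : Measurable (cnt (n := n) s) := by
  classical
  unfold cnt
  simp only [Finset.card_filter]
  exact Finset.measurable_sum _ fun i _ =>
    Measurable.ite (measurable_pi_apply i hs) measurable_const measurable_const

lemma prob_E (n K : ℕ) : (Measure.pi fun _ : Fin n => (volume : Measure I))
    {X | ∀ k < K, cnt (A k) X < cnt (N k) X} ≤ (K : ℝ≥0∞)⁻¹ := by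
  obtain ⟨E, hE⟩ : ∃ E : Set (Fin n → I), E = {X | ∀ k < K, cnt (A k) X < cnt (N k) X} := ⟨_, rfl⟩
  have mE : MeasurableSet E := by
    simp only [hE, setOf_forall]
    exact MeasurableSet.iInter fun k => MeasurableSet.iInter fun _ =>
      measurableSet_lt (cnt_meas (mA k)) (cnt_meas (mN k))
  have mp := fun k => measurePreserving_pi (fun _ : Fin n => (volume : Measure I))
    (fun _ => volume) fun _ => τ_mp k
  have h1 := measure_biUnion_finset (μ := Measure.pi fun _ : Fin n => (volume : Measure I))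
    (s := Finset.range K) (f := fun k => (fun X i => τ k (X i)) ⁻¹' E) ?_
    fun k _ => (mp k).measurable mE
  · simp only [fun k => (mp k).measure_preimage mE.nullMeasurableSet, Finset.sum_const,
      Finset.card_range, nsmul_eq_mul] at h1
    rw [← hE, ENNReal.le_inv_iff_mul_le, mul_comm, ← h1]
    exact prob_le_one
  · intro k hk l hl hkl
    refine disjoint_left.2 fun X h h' => ?_
    simp only [hE, mem_preimage, mem_setOf_eq, Finset.coe_range, mem_Iio] at h h' hk
    have h := h k hk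
    have h' := h' k hk
    have c : ∀ l s t, (∀ x, τ l x ∈ s ↔ x ∈ t) → cnt s (fun i => τ l (X i)) = cnt t X :=
      fun l s t h => by unfold cnt; congr 1; ext i; simp [h]
    rw [c k _ (N k) fun x => by simpa using (τ_A k k x).1,
      c k _ (A k) fun x => by simpa using (τ_A k k x).2] at h
    rw [c l _ (A k) fun x => by simpa [hkl] using (τ_A l k x).1,
      c l _ (N k) fun x => by simpa [hkl] using (τ_A l k x).2] at h'
    exact h.not_gt h'

theorem result : ∃ W : I → I → ℝ, IsGraphon W ∧ Connected W ∧ ¬ CondII W ∧ ¬ NarrowPeninsula W ∧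
    ¬ CondIV W ∧ Tendsto (hamProb W) atTop (𝓝 0) := by
  refine ⟨W0, ⟨measurable_const.indicator mR, fun x y => ?_, W0_mem⟩, connected, notII, notIII,
    notIV, ?_⟩
  · by_cases h : R x y
    · simp [W0, h, R_symm h]
    · simp [W0, h, show ¬ R y x from fun h' => h (R_symm h')]
  have hb : ∀ K n : ℕ, 2 ≤ n → hamProb W0 n ≤ (K : ℝ≥0∞)⁻¹ +
      ∑ k ∈ Finset.range (K + 1), volume (A k)ᶜ ^ n := fun K n hn => by
    have : {ω : (Fin n → I) × (Fin n × Fin n → I) | (sample W0 ω.1 ω.2).IsHamiltonian} ⊆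
        ({X | ∀ k < K, cnt (A k) X < cnt (N k) X} ∪
          ⋃ k ∈ Finset.range (K + 1), univ.pi fun _ => (A k)ᶜ) ×ˢ univ := fun ω h => by
      refine ⟨or_iff_not_imp_right.2 fun hc k hk => ?_, trivial⟩
      simp only [Finset.mem_range, mem_iUnion, mem_univ_pi, mem_compl_iff, exists_prop,
        not_exists, not_and] at hc
      exact ((ham hn h k).resolve_right fun h => h.elim (hc k (by omega)) (hc _ (by omega)))
    refine (measure_mono this).trans ?_
    rw [Measure.prod_prod, measure_univ, mul_one]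
    refine (measure_union_le _ _).trans (add_le_add (prob_E n K)
      ((measure_biUnion_finset_le _ _).trans_eq ?_))
    simp [Measure.pi_pi]
  have ht : ∀ K, Tendsto (fun n => ∑ k ∈ Finset.range (K + 1), volume (A k)ᶜ ^ n) atTop (𝓝 0) :=
    fun K => by
      have := tendsto_finset_sum (Finset.range (K + 1)) fun k _ =>
        ENNReal.tendsto_pow_atTop_nhds_zero_of_lt_one (r := volume (A k)ᶜ) (by
          rw [prob_compl_eq_one_sub (mA k)]
          exact ENNReal.sub_lt_self ENNReal.one_ne_top one_ne_zero (vA_ne k))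
      simpa using this
  rw [ENNReal.tendsto_nhds_zero]
  intro ε hε
  obtain ⟨K, hK⟩ := ENNReal.exists_inv_nat_lt (ENNReal.half_pos hε.ne').ne'
  filter_upwards [ENNReal.tendsto_nhds_zero.1 (ht K) _ (ENNReal.half_pos hε.ne'),
    eventually_ge_atTop 2] with n h1 h2
  exact (hb K n h2).trans ((add_le_add hK.le h1).trans_eq (ENNReal.add_halves ε))

end Pool.Agent.Results.MP_e2d9cc_pr.No
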